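import Pool.Agent.L0h7.RGF.Main
import Pool.Agent.L0h7.TW.Stm
import Pool.Agent.L0h7.TW.TIN
import Pool.Agent.L0h55.TW.TNO
import Pool.Agent.L0h92.TW.TTR
import Pool.Agent.L0h60.TW.TRZ
import Pool.Agent.L0h39.TW.TSD
import Pool.Agent.L0h78.TW.TKL

/-! # Two elements with the same square: assembly -/

set_option autoImplicit false

noncomputable section

namespace Pool.Agent.L0h7.RGF

open Pool.Agent.L0h7.RG Pool.Agent.L0h7.TW

theorem pTTR : S_TTR :=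
  Pool.Agent.L0h92.TW.t_TTR Pool.Agent.L0h60.RG.t_TRA Pool.Agent.L0h7.TW.t_TIN

theorem pTRZ : S_TRZ :=
  Pool.Agent.L0h60.TW.t_TRZ Pool.Agent.L0h91.RG.t_PEX Pool.Agent.L0h7.TW.t_TIN pTTR
    Pool.Agent.L0h55.TW.t_TNO

theorem pTKL : S_TKL :=
  Pool.Agent.L0h78.TW.t_TKL Pool.Agent.L0h39.TW.t_TSD pTRZ pRGZ Pool.Agent.L0h39.RG.t_RIS pKNR pKTA

end Pool.Agent.L0h7.RGF
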