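import Pool.Agent.L0h29.RG.ECA
import Pool.Agent.L0h91.RG.ECB
import Pool.Agent.L0h91.RG.PEX
import Pool.Agent.L0h33.RG.IND
import Pool.Agent.L0h33.RG.NOE
import Pool.Agent.L0h60.RG.TRA
import Pool.Agent.L0h60.RG.RGZ
import Pool.Agent.L0h92.RG.TRE
import Pool.Agent.L0h66.RG.K0S
import Pool.Agent.L0h66.RG.KNF
import Pool.Agent.L0h39.RG.RIS
import Pool.Agent.L0h39.RG.RGA
import Pool.Agent.L0h81.RG.KNR
import Pool.Agent.L0h78.RG.KTA
import Pool.Agent.L0h7.SG.One
import Pool.Agent.L0h7.SS.Fin

/-! # Regular rings, free groups and negative `K`-groups: assembly -/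

set_option autoImplicit false

open CategoryTheory

noncomputable section

namespace Pool.Agent.L0h7.RGF

open Pool.Agent.Y75.NK Pool.Agent.L0h7.KN Pool.Agent.L0h7.RG Pool.Agent.L0h7.SG
open Pool.Agent.L0h7.SS

theorem pTRE : S_TRE := Pool.Agent.L0h92.RG.t_TRE Pool.Agent.L0h60.RG.t_TRA Pool.Agent.L0h33.RG.t_IND

theorem pECB : S_ECB := Pool.Agent.L0h91.RG.t_ECB Pool.Agent.L0h29.RG.t_ECA

theorem pK0S : S_K0S :=
  Pool.Agent.L0h66.RG.t_K0S Pool.Agent.L0h29.RG.t_ECA pECB Pool.Agent.L0h33.RG.t_IND pTRE

theorem pRGZ : S_RGZ :=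
  Pool.Agent.L0h60.RG.t_RGZ Pool.Agent.L0h91.RG.t_PEX Pool.Agent.L0h33.RG.t_IND pTRE
    Pool.Agent.L0h33.RG.t_NOE Pool.Agent.L0h39.RG.t_RIS

theorem pKNR : S_KNR := Pool.Agent.L0h81.RG.t_KNR pK0S pRGZ

theorem pKNF : S_KNF := Pool.Agent.L0h66.RG.t_KNF pK0S pRGZ

theorem pRGA : S_RGA := Pool.Agent.L0h39.RG.t_RGA pRGZ Pool.Agent.L0h39.RG.t_RIS

theorem pKTA : S_KTA := Pool.Agent.L0h78.RG.kta pKNR pRGA

theorem kneg_iso (m : ℕ) {A B : RingCat.{0}} (e : A ≅ B) (h : ∀ x : (Kneg m).obj B, x = 0) :
    ∀ x : (Kneg m).obj A, x = 0 := by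
  intro x
  have h1 : ((Kneg m).map (e.hom ≫ e.inv)).hom x = x := by
    rw [e.hom_inv_id, (Kneg m).map_id]
    rfl
  rw [(Kneg m).map_comp] at h1
  have h2 : ((Kneg m).map e.hom).hom x = 0 := h _
  have h3 : ((Kneg m).map e.inv).hom (((Kneg m).map e.hom).hom x) = x := h1
  rw [← h3, h2, map_zero]

/-- the product of a free group and a free abelian group -/
theorem van_prod (R : Type) [Ring R] (hR : Reg R) (n k m : ℕ) :
    Van R (m + 1) (GrpCat.of (FreeGroup (Fin n) × (Fin k → Multiplicative ℤ))) := by
  have h1 : Reg (MonoidAlgebra R (Fin k → Multiplicative ℤ)) := by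
    refine pRGA R hR _ (fun a b => mul_comm a b) ?_ ?_
    · intro g q hq hg
      funext i
      have h2 : (g i) ^ q = 1 := congrFun hg i
      have h4 : q • (Multiplicative.toAdd (g i)) = 0 := by
        rw [← toAdd_pow, h2]
        rfl
      have h5 : Multiplicative.toAdd (g i) = 0 := by
        rcases smul_eq_zero.1 h4 with h6 | h6
        · omega
        · exact h6
      exact Multiplicative.toAdd.injective h5
    · infer_instance
  let e : MonoidAlgebra R (FreeGroup (Fin n) × (Fin k → Multiplicative ℤ)) ≃+*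
      MonoidAlgebra (MonoidAlgebra R (Fin k → Multiplicative ℤ)) (FreeGroup (Fin n)) :=
    MonoidAlgebra.curryRingEquiv
  exact kneg_iso (m + 1) (RingEquiv.toRingCatIso e)
    (pKNF (MonoidAlgebra R (Fin k → Multiplicative ℤ)) h1 n m)

/-- the homomorphism from a free abelian group given by commuting elements -/
theorem exists_ab {P : Type} [Group P] {k : ℕ} (s : Fin k → P)
    (hs : ∀ i j, s i * s j = s j * s i) :
    ∃ f : (Fin k → Multiplicative ℤ) →* P,
      (∀ i, f (Pi.mulSingle i (Multiplicative.ofAdd 1)) = s i) ∧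
      ∀ c : P, (∀ i, c * s i = s i * c) → ∀ a, c * f a = f a * c := by
  have hc : Pairwise fun i j => ∀ (x y : Multiplicative ℤ),
      Commute (zpowersHom P (s i) x) (zpowersHom P (s j) y) := by
    intro i j _ a b
    have h : Commute (s i) (s j) := hs i j
    exact h.zpow_zpow _ _
  refine ⟨MonoidHom.noncommPiCoprod (fun i => zpowersHom P (s i)) hc, fun i => ?_, ?_⟩
  · rw [MonoidHom.noncommPiCoprod_mulSingle]
    simp
  · intro c h a
    have h1 : (MonoidHom.noncommPiCoprod (fun i => zpowersHom P (s i)) hc).range ≤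
        Subgroup.centralizer {c} := by
      rw [MonoidHom.noncommPiCoprod_range]
      refine iSup_le fun i => ?_
      rintro _ ⟨x, rfl⟩
      rw [Subgroup.mem_centralizer_singleton_iff]
      have h2 : Commute c (s i) := h i
      exact (h2.zpow_right _).symm
    have h3 := h1 ⟨a, rfl⟩
    rw [Subgroup.mem_centralizer_singleton_iff] at h3
    exact h3.symm

/-- a condition on the commutation graph: of two commuting elements one commutes with all others -/
def ConeGraph {n : ℕ} {G : GrpCat.{0}} (t : Fin n → G) : Prop :=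
  ∀ i j, i ≠ j → t i * t j = t j * t i →
    (∀ k, t i * t k = t k * t i) ∨ (∀ k, t j * t k = t k * t j)

theorem van_raag (R : Type) [Ring R] (hR : Reg R) (m : ℕ) {n : ℕ} {G : GrpCat.{0}}
    (t : Fin n → G) (ht : ConeGraph t) : Van R (m + 1) (Raag t) := by
  classical
  let C : Fin n → Prop := fun i => ∀ k, t i * t k = t k * t i
  -- the generators in the group
  let g : Fin n → Raag t := fun i => (toPG n (comRels t)).hom (FreeGroup.of i)
  have hg : ∀ i j, t i * t j = t j * t i → g i * g j = g j * g i := by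
    intro i j hij
    have h1 : (toPG n (comRels t)).hom
        (FreeGroup.of i * FreeGroup.of j * (FreeGroup.of j * FreeGroup.of i)⁻¹) = 1 :=
      (QuotientGroup.eq_one_iff (N := Subgroup.normalClosure (comRels t)) _).2
        (Subgroup.subset_normalClosure ⟨i, j, hij, rfl⟩)
    rw [map_mul, map_inv, map_mul, map_mul] at h1
    exact mul_inv_eq_one.1 h1
  let s : Fin n → Raag t := fun i => if C i then g i else 1
  have hs : ∀ i j, s i * s j = s j * s i := by
    intro i j
    by_cases hi : C i
    · by_cases hj : C j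
      · simp only [s, if_pos hi, if_pos hj]
        exact hg i j (hi j)
      · simp [s, if_neg hj]
    · simp [s, if_neg hi]
  obtain ⟨fa, hfa, hfc⟩ := exists_ab s hs
  let ff : FreeGroup (Fin n) →* Raag t := FreeGroup.lift fun i => if C i then 1 else g i
  -- the images commute
  have hcom : ∀ (x : FreeGroup (Fin n)) (a : Fin n → Multiplicative ℤ),
      Commute (ff x) (fa a) := by
    have hgen : ∀ (i : Fin n) (x : FreeGroup (Fin n)), Commute (ff x) (s i) := by
      intro i x
      induction x using FreeGroup.induction_on with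
      | C1 => simp
      | of j =>
        change Commute (FreeGroup.lift (fun i => if C i then 1 else g i) (FreeGroup.of j)) (s i)
        rw [FreeGroup.lift_apply_of]
        by_cases hj : C j
        · simp [hj]
        · by_cases hi : C i
          · simp only [s, if_neg hj, if_pos hi]
            exact (hg i j (hi j)).symm
          · simp [s, hi]
      | inv_of j h =>
        rw [map_inv]
        exact h.inv_left
      | mul x y hx hy =>
        rw [map_mul]
        exact hx.mul_left hy
    intro x a
    exact hfc (ff x) (fun i => hgen i x) a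
  let r : FreeGroup (Fin n) × (Fin n → Multiplicative ℤ) →* Raag t :=
    MonoidHom.noncommCoprod ff fa hcom
  let q0 : FreeGroup (Fin n) →* FreeGroup (Fin n) × (Fin n → Multiplicative ℤ) :=
    FreeGroup.lift fun i => if C i then (1, Pi.mulSingle i (Multiplicative.ofAdd 1))
      else (FreeGroup.of i, 1)
  have hq0 : ∀ w ∈ comRels t, q0 w = 1 := by
    rintro w ⟨i, j, hij, rfl⟩
    rw [map_mul, map_inv, map_mul, map_mul, mul_inv_eq_one]
    simp only [q0, FreeGroup.lift_apply_of]
    by_cases hi : C i
    · by_cases hj : C j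
      · simp [hi, hj, mul_comm]
      · simp [hi, hj]
    · by_cases hj : C j
      · simp [hi, hj]
      · by_cases h : i = j
        · rw [h]
        · rcases ht i j h hij with h1 | h1
          · exact absurd h1 hi
          · exact absurd h1 hj
  let i0 : Raag t ⟶ GrpCat.of (FreeGroup (Fin n) × (Fin n → Multiplicative ℤ)) :=
    fromPG (GrpCat.ofHom q0 : fm n ⟶ _) (comRels t) hq0
  refine van_retract R (m + 1) i0 (GrpCat.ofHom r) ?_ (van_prod R hR n n m)
  have h5 : r.comp q0 = (toPG n (comRels t)).hom := by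
    apply FreeGroup.ext_hom
    intro i
    change r (q0 (FreeGroup.of i)) = g i
    simp only [q0, FreeGroup.lift_apply_of]
    by_cases hi : C i
    · rw [if_pos hi]
      change ff 1 * fa (Pi.mulSingle i (Multiplicative.ofAdd 1)) = g i
      rw [map_one, one_mul, hfa]
      exact if_pos hi
    · rw [if_neg hi]
      change ff (FreeGroup.of i) * fa 1 = g i
      rw [map_one, mul_one]
      change FreeGroup.lift (fun i => if C i then 1 else g i) (FreeGroup.of i) = g i
      rw [FreeGroup.lift_apply_of]
      exact if_neg hi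
  apply GrpCat.hom_ext
  apply MonoidHom.ext
  intro x
  obtain ⟨w, rfl⟩ := QuotientGroup.mk'_surjective (Subgroup.normalClosure (comRels t)) x
  exact DFunLike.congr_fun h5 w

end Pool.Agent.L0h7.RGF
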