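import Pool.Agent.L0h7.RGF.Main
import Pool.Agent.L0h7.TW.Stm
import Pool.Agent.L0h26.SS.PUSH
import Pool.Agent.L0h36.SS.RAG
import Pool.Agent.L0h36.SS.SUBG
import Pool.Agent.L0h36.SS.TWO

/-! # Regular rings and idempotent matrices with small supports: assembly -/

set_option autoImplicit false

open CategoryTheory

noncomputable section

namespace Pool.Agent.L0h7.RGF

open Pool.Agent.Y75.NK Pool.Agent.L0h7.KN Pool.Agent.L0h7.RG Pool.Agent.L0h7.SG
open Pool.Agent.L0h7.SS Pool.Agent.L0h7.TW

theorem small_cone (R : Type) [Ring R] (hR : Reg R) (m n : ℕ) (G : GrpCat.{0}) (t : Fin n → G)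
    (ht : OnlyCommutations t) (hc : ConeGraph t) (e : Idem (MonoidAlgebra R ((EF (m + 1)).obj G)))
    (he : SuppIn (insert 1 (Set.range t)) e) : kclass R (m + 1) G e = 0 := by
  obtain ⟨x, hx⟩ := Pool.Agent.L0h36.SS.t_RAG Pool.Agent.L0h26.SS.t_PUSH R (m + 1) n G t ht e he
  rw [← hx, van_raag R hR m t hc x, map_zero]

theorem small_table (R : Type) [Ring R] (hR : Reg R) (m : ℕ) (G : GrpCat.{0}) (T : Set G)
    (h1 : (1 : G) ∈ T) (n k : ℕ) (φ : Tbl T ≃* FreeGroup (Fin n) × (Fin k → Multiplicative ℤ))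
    (e : Idem (MonoidAlgebra R ((EF (m + 1)).obj G))) (he : SuppIn T e) :
    kclass R (m + 1) G e = 0 := by
  obtain ⟨x, hx⟩ := Pool.Agent.L0h26.SS.t_TBL Pool.Agent.L0h26.SS.t_PUSH R (m + 1) G T h1 e he
  have h2 : Van R (m + 1) (Tbl T) := by
    refine van_retract R (m + 1) (GrpCat.ofHom φ.toMonoidHom) (GrpCat.ofHom φ.symm.toMonoidHom) ?_
      (van_prod R hR n k m)
    apply GrpCat.hom_ext
    apply MonoidHom.ext
    intro x
    exact φ.symm_apply_apply x
  rw [← hx, h2 x, map_zero]

theorem small_three (hTKL : S_TKL) (R : Type) [Ring R] (hR : Reg R) (m : ℕ) (G : GrpCat.{0})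
    (hG : TFr G) (x y : G) (e : Idem (MonoidAlgebra R ((EF (m + 1)).obj G)))
    (he : SuppIn {1, x, y} e) : kclass R (m + 1) G e = 0 := by
  have h3 := t_THREE (Pool.Agent.L0h36.SS.t_RAG Pool.Agent.L0h26.SS.t_PUSH)
    (Pool.Agent.L0h36.SS.t_SUBG Pool.Agent.L0h26.SS.t_PUSH) Pool.Agent.L0h36.SS.t_TWO
  rcases h3 R (m + 1) G hG x y e he with ⟨h, z, hz⟩ | ⟨z, hz⟩
  · rcases h with h | h
    · have h1 : z = 0 := by
        refine pKTA R hR (GrpCat.of (Subgroup.closure {x, y} : Subgroup G)) ?_ ?_ m z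
        · intro a b
          have h2 : ∀ u ∈ ({x, y} : Set G), ∀ v ∈ ({x, y} : Set G), u * v = v * u := by
            rintro u (rfl | rfl) v (rfl | rfl)
            · rfl
            · exact h
            · exact h.symm
            · rfl
          have h5 : IsMulCommutative (Subgroup.closure {x, y}) :=
            Subgroup.isMulCommutative_closure h2
          exact h5.is_comm.comm a b
        · intro g k hk hg
          have h2 : (g : G) ^ k = 1 := by
            have := congrArg Subtype.val hg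
            simpa using this
          exact Subtype.ext (hG g k hk h2)
      rw [← hz, h1, map_zero]
    · have h1 : z = 0 := hTKL R hR G hG x y (by rw [← pow_two, ← pow_two, h]) m z
      rw [← hz, h1, map_zero]
  · have h1 : z = 0 := pKNF R hR 2 m z
    rw [← hz, h1, map_zero]

end Pool.Agent.L0h7.RGF
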