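import Pool.Agent.L0h7.RGF.Small
import Pool.Agent.L0h7.RGF.Klein

/-! # Supports with three elements in groups without elements of order two or three -/

set_option autoImplicit false

open CategoryTheory

noncomputable section

namespace Pool.Agent.L0h7.RGF

open Pool.Agent.Y75.NK Pool.Agent.L0h7.KN Pool.Agent.L0h7.RG Pool.Agent.L0h7.SG
open Pool.Agent.L0h7.SS Pool.Agent.L0h7.TW

theorem zero_of_push (R : Type) [Ring R] (m : ℕ) (G P : GrpCat.{0}) (T : Set G) (φ : G → P)
    (π : P ⟶ G) (h1 : ∀ a ∈ T, ∀ b ∈ T, φ (a * b) = φ a * φ b) (h2 : ∀ t ∈ T, π.hom (φ t) = t)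
    (hP : Van R m P) (e : Idem (MonoidAlgebra R ((EF m).obj G))) (he : SuppIn T e) :
    kclass R m G e = 0 := by
  obtain ⟨x, hx⟩ := Pool.Agent.L0h26.SS.t_PUSH R m G P T φ π h1 h2 e he
  rw [← hx, hP x, map_zero]

theorem van_int (R : Type) [Ring R] (hR : Reg R) (m : ℕ) :
    Van R (m + 1) (GrpCat.of (Multiplicative ℤ)) :=
  pKNR (MonoidAlgebra R (Multiplicative ℤ)) (pRGZ R hR) m

/-- the Klein bottle group -/
abbrev Kl : Type := Multiplicative ℤ ⋊[Pool.Agent.L0h78.TW.act] FreeGroup (Fin 1)

theorem van_klein (R : Type) [Ring R] (hR : Reg R) (m : ℕ) : Van R (m + 1) (GrpCat.of Kl) := by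
  obtain ⟨inst, ⟨e1⟩⟩ := Pool.Agent.L0h39.TW.t_TSD R (Multiplicative ℤ) (FreeGroup (Fin 1))
    Pool.Agent.L0h78.TW.act
  have h1 : Reg (MonoidAlgebra R (Multiplicative ℤ)) := pRGZ R hR
  have h2 : Reg (SkewMonoidAlgebra (MonoidAlgebra R (Multiplicative ℤ)) (FreeGroup (Fin 1))) :=
    pTRZ _ h1
  have h3 : Reg (MonoidAlgebra R Kl) := Pool.Agent.L0h39.RG.t_RIS _ _ ⟨e1⟩ h2
  exact pKNR _ h3 m

/-- supports in a set of powers of one element -/
theorem cyc (R : Type) [Ring R] (hR : Reg R) (m : ℕ) (G : GrpCat.{0}) (x : G) (I : Set ℤ)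
    (h0 : (0 : ℤ) ∈ I)
    (hI : ∀ a ∈ I, ∀ b ∈ I, ∀ c ∈ I, ∀ d ∈ I, x ^ (a + b) = x ^ (c + d) → a + b = c + d)
    (T : Set G) (hT : ∀ t ∈ T, ∃ i ∈ I, t = x ^ i)
    (e : Idem (MonoidAlgebra R ((EF (m + 1)).obj G))) (he : SuppIn T e) :
    kclass R (m + 1) G e = 0 := by
  classical
  let Q : G → ℤ → Prop := fun g s => (∃ a ∈ I, ∃ b ∈ I, s = a + b) ∧ g = x ^ s
  let φ : G → Multiplicative ℤ := fun g =>
    if h : ∃ s, Q g s then Multiplicative.ofAdd h.choose else 1
  have hφ : ∀ a ∈ I, ∀ b ∈ I, φ (x ^ (a + b)) = Multiplicative.ofAdd (a + b) := by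
    intro a ha b hb
    have h : ∃ s, Q (x ^ (a + b)) s := ⟨a + b, ⟨a, ha, b, hb, rfl⟩, rfl⟩
    obtain ⟨⟨c, hc, d, hd, hs⟩, h2⟩ := h.choose_spec
    have h3 : a + b = h.choose := by
      rw [hs]
      apply hI a ha b hb c hc d hd
      rw [← hs]
      exact h2
    have h4 : φ (x ^ (a + b)) = Multiplicative.ofAdd h.choose := dif_pos h
    rw [h4, ← h3]
  refine zero_of_push R (m + 1) G (GrpCat.of (Multiplicative ℤ)) T φ
    (GrpCat.ofHom (zpowersHom G x)) ?_ ?_ (van_int R hR m) e he
  · intro s hs t ht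
    obtain ⟨i, hi, rfl⟩ := hT s hs
    obtain ⟨j, hj, rfl⟩ := hT t ht
    have h1 := hφ i hi 0 h0
    have h2 := hφ j hj 0 h0
    rw [add_zero] at h1 h2
    rw [← zpow_add, hφ i hi j hj, h1, h2]
    rfl
  · intro t ht
    obtain ⟨i, hi, rfl⟩ := hT t ht
    have h1 := hφ i hi 0 h0
    rw [add_zero] at h1
    rw [h1]
    change zpowersHom G x (Multiplicative.ofAdd i) = x ^ i
    rw [zpowersHom_apply]
    rfl

theorem pw {G : Type} [Group G] (h2 : ∀ g : G, g ^ 2 = 1 → g = 1) (h3 : ∀ g : G, g ^ 3 = 1 → g = 1)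
    (x : G) (hx : x ≠ 1) (s t : ℤ) (hst : |s - t| ≤ 4) (h : x ^ s = x ^ t) : s = t := by
  have h4 : x ^ (s - t) = 1 := by rw [zpow_sub, h, mul_inv_cancel]
  have h5 : x ^ (s - t).natAbs = 1 := by
    rcases Int.natAbs_eq (s - t) with h6 | h6
    · rw [← zpow_natCast, ← h6]
      exact h4
    · rw [h6, zpow_neg, inv_eq_one, zpow_natCast] at h4
      exact h4
  have h6 : (s - t).natAbs ≤ 4 := by
    have h7 := abs_le.1 hst
    omega
  by_contra hne
  have h7 : 1 ≤ (s - t).natAbs := by omega
  generalize (s - t).natAbs = n at h5 h6 h7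
  interval_cases n
  · rw [pow_one] at h5
    exact hx h5
  · exact hx (h2 x h5)
  · exact hx (h3 x h5)
  · exact hx (h2 x (h2 (x ^ 2) (by rw [← pow_mul]; exact h5)))

theorem pair_cyc (R : Type) [Ring R] (hR : Reg R) (m : ℕ) (G : GrpCat.{0})
    (h2 : ∀ g : G, g ^ 2 = 1 → g = 1) (h3 : ∀ g : G, g ^ 3 = 1 → g = 1) (x y : G) (hx : x ≠ 1)
    (k : ℤ) (hk1 : -1 ≤ k) (hk2 : k ≤ 2) (hy : y = x ^ k)
    (e : Idem (MonoidAlgebra R ((EF (m + 1)).obj G))) (he : SuppIn {1, x, y} e) :
    kclass R (m + 1) G e = 0 := by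
  refine cyc R hR m G x {0, 1, k} (by simp) ?_ {1, x, y} ?_ e he
  · intro a ha b hb c hc d hd h
    refine pw h2 h3 x hx _ _ ?_ h
    rw [abs_le]
    rcases ha with rfl | rfl | rfl <;> rcases hb with rfl | rfl | rfl <;>
      rcases hc with rfl | rfl | rfl <;> rcases hd with rfl | rfl | rfl <;>
      constructor <;> omega
  · rintro t (h | h | h)
    · exact ⟨0, by simp, by rw [h, zpow_zero]⟩
    · exact ⟨1, by simp, by rw [h, zpow_one]⟩
    · exact ⟨k, by simp, by rw [h, hy]⟩

theorem klein_rel : ((⟨Multiplicative.ofAdd (-1), FreeGroup.of 0⟩ : Kl) *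
    ⟨Multiplicative.ofAdd (-1), FreeGroup.of 0⟩) =
      (⟨1, FreeGroup.of 0⟩ : Kl) * ⟨1, FreeGroup.of 0⟩ := by
  have h1 : ∀ n : Multiplicative ℤ,
      (Pool.Agent.L0h78.TW.act (FreeGroup.of (0 : Fin 1))) n = n⁻¹ := by
    intro n
    unfold Pool.Agent.L0h78.TW.act
    rw [FreeGroup.lift_apply_of]
    rfl
  apply SemidirectProduct.ext
  · rw [SemidirectProduct.mul_left, SemidirectProduct.mul_left, h1, h1]
    simp
  · rfl

theorem klein (R : Type) [Ring R] (hR : Reg R) (m : ℕ) (G : GrpCat.{0}) (x y : G)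
    (hxy : x * x = y * y) (hc : x * y ≠ y * x) (hx2 : x * x ≠ 1)
    (e : Idem (MonoidAlgebra R ((EF (m + 1)).obj G))) (he : SuppIn {1, x, y} e) :
    kclass R (m + 1) G e = 0 := by
  classical
  let X : Kl := ⟨1, FreeGroup.of 0⟩
  let Y : Kl := ⟨Multiplicative.ofAdd (-1), FreeGroup.of 0⟩
  have hXY : Y * Y = X * X := klein_rel
  let π : Kl →* G := Pool.Agent.L0h78.TW.hom x y hxy
  have hπX : π X = x := by
    change Pool.Agent.L0h78.TW.hom x y hxy ⟨1, FreeGroup.of 0⟩ = x
    rw [Pool.Agent.L0h78.TW.hom_apply, FreeGroup.lift_apply_of]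
    simp
  have hπY : π Y = y := by
    change Pool.Agent.L0h78.TW.hom x y hxy ⟨Multiplicative.ofAdd (-1), FreeGroup.of 0⟩ = y
    rw [Pool.Agent.L0h78.TW.hom_apply, FreeGroup.lift_apply_of]
    simp
  have hx1 : x ≠ 1 := by
    intro h
    apply hc
    rw [h, one_mul, mul_one]
  have hy1 : y ≠ 1 := by
    intro h
    apply hc
    rw [h, one_mul, mul_one]
  have hne : x ≠ y := by
    intro h
    apply hc
    rw [h]
  have a1 : x * x ≠ x := by simpa using hx1
  have a2 : x * x ≠ y := by
    intro h
    apply hc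
    rw [← h, mul_assoc]
  have b0 : x * y ≠ 1 := by
    intro h
    apply hc
    rw [h, mul_eq_one_iff_eq_inv.1 h, mul_inv_cancel]
  have b1 : x * y ≠ x := by simpa using hy1
  have b2 : x * y ≠ y := by simpa using hx1
  have b3 : x * y ≠ x * x := by
    intro h
    exact hne (mul_left_cancel h).symm
  have c0 : y * x ≠ 1 := by
    intro h
    apply hc
    rw [h, mul_eq_one_iff_eq_inv.1 h, mul_inv_cancel]
  have c1 : y * x ≠ x := by simpa using hy1
  have c2 : y * x ≠ y := by simpa using hx1
  have c3 : y * x ≠ x * x := by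
    intro h
    exact hne (mul_right_cancel h).symm
  have c4 : y * x ≠ x * y := hc.symm
  let φ : G → Kl := fun g => if g = x * x then X * X else if g = x * y then X * Y else
    if g = y * x then Y * X else if g = x then X else if g = y then Y else 1
  have v1 : φ 1 = 1 := by
    change (if (1 : G) = x * x then X * X else if (1 : G) = x * y then X * Y else
      if (1 : G) = y * x then Y * X else if (1 : G) = x then X else if (1 : G) = y then Y else 1) = 1
    rw [if_neg hx2.symm, if_neg b0.symm, if_neg c0.symm, if_neg hx1.symm, if_neg hy1.symm]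
  have vx : φ x = X := by
    change (if x = x * x then X * X else if x = x * y then X * Y else
      if x = y * x then Y * X else if x = x then X else if x = y then Y else 1) = X
    rw [if_neg a1.symm, if_neg b1.symm, if_neg c1.symm, if_pos rfl]
  have vy : φ y = Y := by
    change (if y = x * x then X * X else if y = x * y then X * Y else
      if y = y * x then Y * X else if y = x then X else if y = y then Y else 1) = Y
    rw [if_neg a2.symm, if_neg b2.symm, if_neg c2.symm, if_neg hne.symm, if_pos rfl]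
  have vxx : φ (x * x) = X * X := if_pos rfl
  have vxy : φ (x * y) = X * Y := by
    change (if x * y = x * x then X * X else if x * y = x * y then X * Y else _) = X * Y
    rw [if_neg b3, if_pos rfl]
  have vyx : φ (y * x) = Y * X := by
    change (if y * x = x * x then X * X else if y * x = x * y then X * Y else
      if y * x = y * x then Y * X else _) = Y * X
    rw [if_neg c3, if_neg c4, if_pos rfl]
  refine zero_of_push R (m + 1) G (GrpCat.of Kl) {1, x, y} φ (GrpCat.ofHom π) ?_ ?_
    (van_klein R hR m) e he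
  · rintro a (ha | ha | ha) b (hb | hb | hb)
    · rw [ha, hb, mul_one, v1, mul_one]
    · rw [ha, hb, one_mul, v1, one_mul]
    · rw [ha, hb, one_mul, v1, one_mul]
    · rw [ha, hb, mul_one, v1, mul_one]
    · rw [ha, hb, vxx, vx]
    · rw [ha, hb, vxy, vx, vy]
    · rw [ha, hb, mul_one, v1, mul_one]
    · rw [ha, hb, vyx, vx, vy]
    · rw [ha, hb, ← hxy, vxx, vy, hXY]
  · rintro t (ht | ht | ht)
    · rw [ht, v1]
      exact map_one π
    · rw [ht, vx]
      exact hπX
    · rw [ht, vy]
      exact hπY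

/-- a support with three elements in a group without elements of order two or three -/
theorem small_torsion (R : Type) [Ring R] (hR : Reg R) (m : ℕ) (G : GrpCat.{0})
    (h2 : ∀ g : G, g ^ 2 = 1 → g = 1) (h3 : ∀ g : G, g ^ 3 = 1 → g = 1) (x y : G)
    (e : Idem (MonoidAlgebra R ((EF (m + 1)).obj G))) (he : SuppIn {1, x, y} e) :
    kclass R (m + 1) G e = 0 := by
  have he' : SuppIn {1, y, x} e := by
    rw [Set.pair_comm y x]
    exact he
  by_cases hx : x = 1
  · by_cases hy : y = 1
    · refine zero_of_push R (m + 1) G (GrpCat.of (Multiplicative ℤ)) {1, x, y} (fun _ => 1)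
        (GrpCat.ofHom 1) ?_ ?_ (van_int R hR m) e he
      · intro a _ b _
        exact (mul_one 1).symm
      · rintro t (ht | ht | ht)
        · rw [ht]
          rfl
        · rw [ht, hx]
          rfl
        · rw [ht, hy]
          rfl
    · exact pair_cyc R hR m G h2 h3 y x hy 0 (by norm_num) (by norm_num) (by rw [hx, zpow_zero]) e
        he'
  by_cases hy : y = 1
  · exact pair_cyc R hR m G h2 h3 x y hx 0 (by norm_num) (by norm_num) (by rw [hy, zpow_zero]) e he
  by_cases hxy : x = y
  · exact pair_cyc R hR m G h2 h3 x y hx 1 (by norm_num) (by norm_num) (by rw [hxy, zpow_one]) e he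
  by_cases hxy1 : x * y = 1
  · exact pair_cyc R hR m G h2 h3 x y hx (-1) (by norm_num) (by norm_num)
      (by rw [zpow_neg, zpow_one]; exact eq_inv_of_mul_eq_one_right hxy1) e he
  by_cases hy2 : y = x * x
  · exact pair_cyc R hR m G h2 h3 x y hx 2 (by norm_num) (by norm_num)
      (by rw [hy2, zpow_two]) e he
  by_cases hx2 : x = y * y
  · exact pair_cyc R hR m G h2 h3 y x hy 2 (by norm_num) (by norm_num)
      (by rw [hx2, zpow_two]) e he'
  have hxx : x * x ≠ 1 := fun h => hx (h2 x (by rw [pow_two, h]))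
  have hyy : y * y ≠ 1 := fun h => hy (h2 y (by rw [pow_two, h]))
  have hyx1 : y * x ≠ 1 := fun h => hxy1 (by rw [mul_eq_one_iff_eq_inv.1 h, mul_inv_cancel])
  by_cases hs : x * x = y * y
  · by_cases hc : x * y = y * x
    · exfalso
      apply hxy
      have h4 : (x * y⁻¹) ^ 2 = 1 := by
        have h5 : Commute x y := hc
        rw [h5.inv_right.mul_pow, inv_pow, pow_two, pow_two, hs, mul_inv_cancel]
      exact mul_inv_eq_one.1 (h2 _ h4)
    · exact klein R hR m G x y hs hc hxx e he
  have hOC : OnlyCommutations ![x, y] := by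
    have hyx : y ≠ x := fun h => hxy h.symm
    have hs' : y * y ≠ x * x := fun h => hs h.symm
    refine ⟨?_, ?_, ?_, ?_, ?_⟩
    · intro i
      fin_cases i
      · exact hx
      · exact hy
    · intro i j hij
      fin_cases i <;> fin_cases j
      · rfl
      · exact absurd hij hxy
      · exact absurd hij hyx
      · rfl
    · intro i j
      fin_cases i <;> fin_cases j
      · exact hxx
      · exact hxy1
      · exact hyx1
      · exact hyy
    · intro i j k
      fin_cases i <;> fin_cases j <;> fin_cases k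
      · exact fun h : x * x = x => hx (by simpa using h)
      · exact fun h : x * x = y => hy2 h.symm
      · exact fun h : x * y = x => hy (by simpa using h)
      · exact fun h : x * y = y => hx (by simpa using h)
      · exact fun h : y * x = x => hy (by simpa using h)
      · exact fun h : y * x = y => hx (by simpa using h)
      · exact fun h : y * y = x => hx2 h.symm
      · exact fun h : y * y = y => hy (by simpa using h)
    · intro i j k l h
      fin_cases i <;> fin_cases j <;> fin_cases k <;> fin_cases l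
      · exact Or.inl ⟨rfl, rfl⟩
      · exact absurd (mul_left_cancel (show x * x = x * y from h)) hxy
      · exact absurd (mul_right_cancel (show x * x = y * x from h)) hxy
      · exact absurd (show x * x = y * y from h) hs
      · exact absurd (mul_left_cancel (show x * y = x * x from h)) hyx
      · exact Or.inl ⟨rfl, rfl⟩
      · exact Or.inr ⟨rfl, rfl⟩
      · exact absurd (mul_right_cancel (show x * y = y * y from h)) hxy
      · exact absurd (mul_right_cancel (show y * x = x * x from h)) hyx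
      · exact Or.inr ⟨rfl, rfl⟩
      · exact Or.inl ⟨rfl, rfl⟩
      · exact absurd (mul_left_cancel (show y * x = y * y from h)) hxy
      · exact absurd (show y * y = x * x from h) hs'
      · exact absurd (mul_right_cancel (show y * y = x * y from h)) hyx
      · exact absurd (mul_left_cancel (show y * y = y * x from h)) hyx
      · exact Or.inl ⟨rfl, rfl⟩
  refine small_cone R hR m 2 G ![x, y] hOC ?_ e ?_
  · intro i j hij h
    left
    intro k
    fin_cases i <;> fin_cases j <;> fin_cases k
    · exact absurd rfl hij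
    · exact absurd rfl hij
    · rfl
    · exact h
    · exact h
    · rfl
    · exact absurd rfl hij
    · exact absurd rfl hij
  · intro i j z hz
    rcases he i j z hz with h | h | h
    · exact Or.inl h
    · exact Or.inr ⟨0, h.symm⟩
    · exact Or.inr ⟨1, h.symm⟩

end Pool.Agent.L0h7.RGF
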